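import Mathlib
import Pool.Agent.L0h77.WK.Stm

set_option autoImplicit false
set_option linter.all false

/-! # Project WK, module SOB -/

open MeasureTheory Filter Topology Complex

namespace Pool.Agent.L0h90.WK

lemma bd {h : ℝ → ℝ} (hc : Continuous h) {R y : ℝ} (hR : 0 ≤ R) (hy : |y| ≤ R) :
    |∫ t in (0 : ℝ)..y, h t| ≤ ∫ t in (-R)..R, |h t| := by
  have h1 := intervalIntegral.norm_integral_le_abs_integral_norm (f := h) (a := 0) (b := y)
    (μ := volume)
  simp only [Real.norm_eq_abs] at h1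
  have h2 : |(∫ t in (0 : ℝ)..y, |h t|)| ≤ |(∫ t in (-R)..R, |h t|)| := by
    refine intervalIntegral.abs_integral_mono_interval ?_ ?_ ?_
    · intro t ht
      rw [Set.mem_uIoc] at ht ⊢
      obtain ⟨h3, h4⟩ := abs_le.1 hy
      left
      rcases ht with ht | ht
      · exact ⟨by linarith [ht.1], by linarith [ht.2]⟩
      · exact ⟨by linarith [ht.1], by linarith [ht.2]⟩
    · exact Filter.Eventually.of_forall fun t => abs_nonneg _
    · exact (hc.abs).intervalIntegrable _ _
  have h3 : 0 ≤ ∫ t in (-R)..R, |h t| :=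
    intervalIntegral.integral_nonneg (by linarith) fun t _ => abs_nonneg _
  rw [abs_of_nonneg h3] at h2
  exact h1.trans h2

lemma ftc {g g' : ℝ → ℝ} (hg : ∀ s, HasDerivAt g (g' s) s) (hc : Continuous g') (x : ℝ) :
    g x = g 0 + ∫ s in (0 : ℝ)..x, g' s := by
  have := intervalIntegral.integral_eq_sub_of_hasDerivAt (a := 0) (b := x)
    (fun s _ => hg s) (hc.intervalIntegrable _ _)
  rw [this]
  ring

lemma shift {f : ℂ → ℝ} {c : ℂ} {z : ℂ} {d : ℝ} (s₀ : ℝ)
    (h : HasDerivAt (fun s : ℝ => f (z + s₀ * c + s * c)) d 0) :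
    HasDerivAt (fun s : ℝ => f (z + s * c)) d s₀ := by
  have h1 : HasDerivAt (fun s : ℝ => f (z + s₀ * c + s * c)) d (s₀ - s₀) := by rwa [sub_self]
  have h2 := HasDerivAt.comp_sub_const s₀ s₀ h1
  refine h2.congr_of_eventuallyEq (Filter.Eventually.of_forall fun s => ?_)
  show f (z + s * c) = f (z + s₀ * c + ((s - s₀ : ℝ) : ℂ) * c)
  congr 1
  push_cast
  ring

/-- **SOB** -/
theorem SOB : Pool.Agent.L0h77.WK.S_SOB := by
  intro f f1 f2 f12 hc1 hc2 hc12 h1 h2 h12 R hR w hw
  set x : ℝ := w.re with hx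
  set y : ℝ := w.im with hy
  have hxR : |x| ≤ R := (Complex.abs_re_le_norm w).trans hw
  have hyR : |y| ≤ R := (Complex.abs_im_le_norm w).trans hw
  have hw' : w = (y * I) + (x : ℂ) := by
    rw [add_comm]
    exact (Complex.re_add_im w).symm
  -- along the horizontal line
  have e1 : f w = f (y * I) + ∫ s in (0 : ℝ)..x, f1 (y * I + s) := by
    have := ftc (g := fun s : ℝ => f (y * I + s)) (g' := fun s : ℝ => f1 (y * I + s))
      (fun s => by
        have h3 := shift (f := f) (c := 1) (z := y * I) (d := f1 (y * I + s)) s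
          (by simpa using h1 (y * I + s))
        simpa using h3) (by fun_prop) x
    simp only [Complex.ofReal_zero, add_zero] at this
    rw [hw']
    exact this
  have e2 : f (y * I) = f 0 + ∫ t in (0 : ℝ)..y, f2 (t * I) := by
    have := ftc (g := fun s : ℝ => f (s * I)) (g' := fun s : ℝ => f2 (s * I))
      (fun s => by
        have h3 := shift (f := f) (c := I) (z := 0) (d := f2 (s * I)) s
          (by simpa using h2 (s * I))
        simpa using h3) (by fun_prop) y
    simp only [Complex.ofReal_zero, zero_mul] at this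
    exact this
  have e3 : ∀ s : ℝ, f1 (y * I + s) = f1 s + ∫ t in (0 : ℝ)..y, f12 (s + t * I) := by
    intro s
    have := ftc (g := fun t : ℝ => f1 (s + t * I)) (g' := fun t : ℝ => f12 (s + t * I))
      (fun t => shift (f := f1) (c := I) (z := s) (d := f12 (s + t * I)) t
          (h12 (s + t * I))) (by fun_prop) y
    simp only [Complex.ofReal_zero, zero_mul, add_zero] at this
    rw [add_comm (y * I : ℂ)]
    exact this
  have hG : Continuous fun s : ℝ => ∫ t in (0 : ℝ)..y, f12 (s + t * I) :=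
    intervalIntegral.continuous_parametric_intervalIntegral_of_continuous'
      (f := fun (s : ℝ) (t : ℝ) => f12 (s + t * I)) (by fun_prop) 0 y
  have hG2 : Continuous fun s : ℝ => ∫ t in (-R)..R, |f12 (s + t * I)| :=
    intervalIntegral.continuous_parametric_intervalIntegral_of_continuous'
      (f := fun (s : ℝ) (t : ℝ) => |f12 (s + t * I)|) (by fun_prop) (-R) R
  have hf1 : Continuous fun s : ℝ => f1 s := by fun_prop
  have e4 : ∫ s in (0 : ℝ)..x, f1 (y * I + s)
      = (∫ s in (0 : ℝ)..x, f1 s) + ∫ s in (0 : ℝ)..x, ∫ t in (0 : ℝ)..y, f12 (s + t * I) := by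
    simp only [e3]
    exact intervalIntegral.integral_add (hf1.intervalIntegrable _ _) (hG.intervalIntegrable _ _)
  have b1 := bd (h := fun t : ℝ => f2 (t * I)) (by fun_prop) hR hyR
  have b2 := bd (h := fun s : ℝ => f1 s) hf1 hR hxR
  have b3 := bd hG hR hxR
  have b4 : (∫ s in (-R)..R, |∫ t in (0 : ℝ)..y, f12 (s + t * I)|)
      ≤ ∫ s in (-R)..R, ∫ t in (-R)..R, |f12 (s + t * I)| := by
    refine intervalIntegral.integral_mono_on (by linarith) (hG.abs.intervalIntegrable _ _)
      (hG2.intervalIntegrable _ _) fun s _ => ?_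
    exact bd (h := fun t : ℝ => f12 (s + t * I)) (by fun_prop) hR hyR
  rw [e1, e2, e4]
  refine (abs_add_le _ _).trans ?_
  have t1 := abs_add_le (f 0) (∫ t in (0 : ℝ)..y, f2 (t * I))
  have t2 := abs_add_le (∫ s in (0 : ℝ)..x, f1 s)
    (∫ s in (0 : ℝ)..x, ∫ t in (0 : ℝ)..y, f12 (s + t * I))
  linarith

end Pool.Agent.L0h90.WK
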